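import Mathlib

/-!
Limsup sets of rational approximations and measures of Hausdorff type.
-/

set_option autoImplicit false

open MeasureTheory Filter Topology Set
open scoped ENNReal

namespace Pool.Agent.D0H48.Hl

/-- a convergence lemma of Borel-Cantelli type for measures of Hausdorff type -/
theorem gauge_bc {X : Type*} [EMetricSpace X] [MeasurableSpace X] [BorelSpace X] {ι : Type*} [Countable ι] (h : ι → ℕ)
    (hfin : ∀ J, {i | h i < J}.Finite) (t : ι → Set X) (m : ℝ≥0∞ → ℝ≥0∞) (r : ℕ → ℝ≥0∞) (hr : Tendsto r atTop (𝓝 0))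
    (J0 : ℕ) (ht : ∀ J, J0 ≤ J → ∀ i, J ≤ h i → Metric.ediam (t i) ≤ r J) (w : ι → ℝ≥0∞) (hw : ∑' i, w i ≠ ∞)
    (hmw : ∀ i, J0 ≤ h i → m (Metric.ediam (t i)) ≤ w i) :
    Measure.mkMetric m {x | ∀ J, ∃ i, J ≤ h i ∧ x ∈ t i} = 0 := by
  classical
  set F : ℕ → Finset ι := fun J => (hfin J).toFinset with hF
  have hFmono : Monotone F := by
    intro J J' hJ i hi
    rw [hF] at hi ⊢
    simp only [Set.Finite.mem_toFinset, Set.mem_ofPred_eq] at hi ⊢
    omega
  have hFt : Tendsto F atTop atTop := by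
    apply tendsto_atTop_finset_of_monotone hFmono
    intro i
    refine ⟨h i + 1, ?_⟩
    rw [hF]
    simp
  have htail : Tendsto (fun J => ∑' b : {x // x ∉ F J}, w b) atTop (𝓝 0) :=
    (ENNReal.tendsto_tsum_compl_atTop_zero hw).comp hFt
  have hmem : ∀ (J : ℕ) (b : {x // x ∉ F J}), J ≤ h b := by
    intro J b
    by_contra hcon
    apply b.2
    simp only [hF, Set.Finite.mem_toFinset, Set.mem_ofPred_eq]
    omega
  have h1 := Measure.mkMetric_le_liminf_tsum (β := ℕ) (ι := fun J => {x // x ∉ F J}) {x | ∀ J, ∃ i, J ≤ h i ∧ x ∈ t i}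
    (l := atTop) r hr (fun J b => t b) (by
      filter_upwards [eventually_ge_atTop J0] with J hJ i
      exact ht J hJ i (hmem J i)) (Eventually.of_forall fun J => by
        intro x hx
        obtain ⟨i, hi, hxi⟩ := hx J
        rw [mem_iUnion]
        refine ⟨⟨i, ?_⟩, hxi⟩
        rw [hF]
        simpa using hi) m
  have h2 : liminf (fun J => ∑' b : {x // x ∉ F J}, m (Metric.ediam (t b))) atTop ≤ 0 := by
    have h3 : Tendsto (fun J => ∑' b : {x // x ∉ F J}, m (Metric.ediam (t b))) atTop (𝓝 0) := by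
      apply tendsto_of_tendsto_of_tendsto_of_le_of_le' tendsto_const_nhds htail
      · exact Eventually.of_forall fun _ => zero_le
      · filter_upwards [eventually_ge_atTop J0] with J hJ
        apply ENNReal.tsum_le_tsum
        intro b
        exact hmw b (hJ.trans (hmem J b))
    exact h3.liminf_eq.le
  exact le_antisymm (h1.trans h2) zero_le

/-- the points with a good approximation `a / q` -/
def Ap {d : ℕ} (B : ℕ) (q : ℕ) (a : Fin d → ℕ) : Set (Fin d → ℝ) :=
  {α | ∀ i, (q:ℝ) * |q * α i - a i| ^ d ≤ (Real.log q) ^ B}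

/-- the radius -/
noncomputable def rad (d B q : ℕ) : ℝ := ((Real.log q) ^ B / (q:ℝ) ^ (d + 1)) ^ ((1:ℝ) / d)

lemma rad_pow {d B q : ℕ} (hd : 1 ≤ d) (hq : 1 ≤ q) : rad d B q ^ d = (Real.log q) ^ B / (q:ℝ) ^ (d + 1) := by
  unfold rad
  have hd0 : (d:ℝ) ≠ 0 := by exact_mod_cast (by omega : d ≠ 0)
  have hl : 0 ≤ Real.log q := Real.log_natCast_nonneg q
  rw [← Real.rpow_natCast, ← Real.rpow_mul (by positivity), one_div, inv_mul_cancel₀ hd0, Real.rpow_one]

lemma rad_nonneg (d B q : ℕ) : 0 ≤ rad d B q := by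
  unfold rad
  have hl : 0 ≤ Real.log q := Real.log_natCast_nonneg q
  positivity

lemma Ap_sub {d B q : ℕ} (hd : 1 ≤ d) (hq : 1 ≤ q) (a : Fin d → ℕ) {α : Fin d → ℝ} (h : α ∈ Ap B q a) (i : Fin d) :
    |α i - a i / q| ≤ rad d B q := by
  have hq0 : (0:ℝ) < q := by exact_mod_cast hq
  have h1 := h i
  have h2 : |α i - a i / q| ^ d ≤ rad d B q ^ d := by
    rw [rad_pow hd hq]
    have e : |α i - a i / q| = |q * α i - a i| / q := by
      rw [← abs_of_pos hq0, ← abs_div, abs_of_pos hq0]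
      congr 1
      field_simp
    rw [e, div_pow, div_le_div_iff₀ (by positivity) (by positivity)]
    calc |q * α i - a i| ^ d * (q:ℝ) ^ (d + 1) = (q * |q * α i - a i| ^ d) * (q:ℝ) ^ d := by rw [pow_succ]; ring
      _ ≤ _ := mul_le_mul_of_nonneg_right h1 (by positivity)
  exact (pow_le_pow_iff_left₀ (abs_nonneg _) (rad_nonneg _ _ _) (by omega)).mp h2

lemma Ap_diam {d B q : ℕ} (hd : 1 ≤ d) (hq : 1 ≤ q) (a : Fin d → ℕ) : Metric.ediam (Ap B q a) ≤ ENNReal.ofReal (2 * rad d B q) := by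
  apply Metric.ediam_le
  intro x hx y hy
  rw [edist_dist]
  apply ENNReal.ofReal_le_ofReal
  have hr := rad_nonneg d B q
  rw [dist_pi_le_iff (by positivity)]
  intro i
  have h1 := abs_le.mp (Ap_sub hd hq a hx i)
  have h2 := abs_le.mp (Ap_sub hd hq a hy i)
  rw [Real.dist_eq, abs_le]
  constructor <;> linarith

lemma ev_log (B : ℕ) : ∃ q0 : ℕ, 3 ≤ q0 ∧ ∀ q : ℕ, q0 ≤ q → (Real.log q) ^ B ≤ q ∧ 1 ≤ Real.log q := by
  have h1 := (isLittleO_log_rpow_atTop one_pos).def one_pos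
  have h2 : ∀ᶠ x : ℝ in atTop, (Real.log x) ^ B ≤ x := by
    have := (Real.isLittleO_pow_log_id_atTop (n := B)).bound one_pos
    filter_upwards [this, eventually_ge_atTop 0] with x hx hx0
    rw [one_mul, Real.norm_eq_abs, Real.norm_eq_abs, id, abs_of_nonneg hx0] at hx
    exact (le_abs_self _).trans hx
  have h3 : ∀ᶠ x : ℝ in atTop, 1 ≤ Real.log x := Real.tendsto_log_atTop.eventually_ge_atTop 1
  have h4 : ∀ᶠ q : ℕ in atTop, (Real.log q) ^ B ≤ q ∧ 1 ≤ Real.log q := tendsto_natCast_atTop_atTop.eventually (h2.and h3)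
  obtain ⟨q0, hq0⟩ := eventually_atTop.mp h4
  exact ⟨max q0 3, le_max_right _ _, fun q hq => hq0 q ((le_max_left _ _).trans hq)⟩

/-- the limsup set is null for all the gauges of the size of `r ^ d log ^ K (1 / r)` -/
theorem limsup_null {d : ℕ} (hd : 1 ≤ d) (A B K : ℕ) (S : Set (ℕ × (Fin d → ℕ))) (hS : ∀ x ∈ S, ∀ i, x.2 i ≤ A * x.1)
    (hsum : ∑' x : S, ENNReal.ofReal ((Real.log x.1.1) ^ (B + K) / (x.1.1:ℝ) ^ (d + 1)) ≠ ∞)
    (m : ℝ≥0∞ → ℝ≥0∞) (hm : Monotone m) (C : ℝ) (hC : 0 ≤ C)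
    (hmC : ∀ r : ℝ, 0 < r → r ≤ 1 / 2 → m (ENNReal.ofReal r) ≤ ENNReal.ofReal (C * (r ^ d * (Real.log (1 / r)) ^ K))) :
    Measure.mkMetric m {α : Fin d → ℝ | ∀ J : ℕ, ∃ x : S, J ≤ x.1.1 ∧ α ∈ Ap B x.1.1 x.1.2} = 0 := by
  obtain ⟨q0, hq3, hq0⟩ := ev_log B
  have hradq : ∀ q : ℕ, q0 ≤ q → rad d B q ≤ 1 / q ∧ 1 / (q:ℝ) ^ 2 ≤ rad d B q := by
    intro q hq
    obtain ⟨h1, h2⟩ := hq0 q hq
    have hq1 : (1:ℝ) ≤ q := by exact_mod_cast (by omega : 1 ≤ q)
    have hqp : (0:ℝ) < q := by linarith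
    constructor
    · refine (pow_le_pow_iff_left₀ (rad_nonneg _ _ _) (by positivity) (by omega : d ≠ 0)).mp ?_
      rw [rad_pow hd (by omega), div_pow, one_pow, div_le_div_iff₀ (by positivity) (by positivity), one_mul, pow_succ, mul_comm]
      exact mul_le_mul_of_nonneg_left h1 (by positivity)
    · refine (pow_le_pow_iff_left₀ (by positivity) (rad_nonneg _ _ _) (by omega : d ≠ 0)).mp ?_
      rw [rad_pow hd (by omega), div_pow, one_pow, ← pow_mul]
      apply div_le_div₀ (by positivity) (one_le_pow₀ h2) (by positivity)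
      exact pow_le_pow_right₀ hq1 (by omega)
  refine gauge_bc (ι := S) (fun x => x.1.1) ?_ (fun x => Ap B x.1.1 x.1.2) m (fun J => ENNReal.ofReal (2 * (1 / (J:ℝ)))) ?_
    (q0 + 4) ?_ (fun x => ENNReal.ofReal (C * 2 ^ (d + K)) * ENNReal.ofReal ((Real.log x.1.1) ^ (B + K) / (x.1.1:ℝ) ^ (d + 1))) ?_ ?_
  · -- finiteness
    intro J
    apply Set.Finite.of_finite_image (f := Subtype.val) _ Subtype.val_injective.injOn
    have hf : (((Finset.range J) ×ˢ Fintype.piFinset (fun _ : Fin d => Finset.range (A * J + 1)) : Finset (ℕ × (Fin d → ℕ))) :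
        Set (ℕ × (Fin d → ℕ))).Finite := Finset.finite_toSet _
    refine hf.subset ?_
    rintro _ ⟨x, hx, rfl⟩
    have hx' : x.1.1 < J := hx
    rw [Finset.mem_coe, Finset.mem_product, Finset.mem_range, Fintype.mem_piFinset]
    refine ⟨hx', fun i => ?_⟩
    rw [Finset.mem_range]
    have := hS x.1 x.2 i
    have h2 : A * x.1.1 ≤ A * J := Nat.mul_le_mul_left _ hx'.le
    omega
  · have h1 : Tendsto (fun J : ℕ => 2 * (1 / (J:ℝ))) atTop (𝓝 (2 * 0)) := tendsto_one_div_atTop_nhds_zero_nat.const_mul 2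
    rw [mul_zero] at h1
    have := ENNReal.tendsto_ofReal h1
    rwa [ENNReal.ofReal_zero] at this
  · intro J hJ x hx
    have hx1 : q0 ≤ x.1.1 := by omega
    refine (Ap_diam hd (by omega) _).trans ?_
    apply ENNReal.ofReal_le_ofReal
    have h1 := (hradq x.1.1 hx1).1
    have hJ0 : (0:ℝ) < J := by exact_mod_cast (by omega : 0 < J)
    have h2 : 1 / (x.1.1:ℝ) ≤ 1 / J := one_div_le_one_div_of_le hJ0 (by exact_mod_cast hx)
    linarith
  · rw [ENNReal.tsum_mul_left]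
    exact ENNReal.mul_ne_top ENNReal.ofReal_ne_top hsum
  · intro x hx
    obtain ⟨q, hq⟩ : ∃ q, q = x.1.1 := ⟨_, rfl⟩
    rw [← hq] at hx ⊢
    have hqq : q0 ≤ q := by omega
    obtain ⟨h1, h2⟩ := hradq q hqq
    obtain ⟨h3, h4⟩ := hq0 q hqq
    have hq4 : (4:ℝ) ≤ q := by exact_mod_cast (by omega : 4 ≤ q)
    have hqp : (0:ℝ) < q := by linarith
    have hrp : 0 < rad d B q := lt_of_lt_of_le (by positivity) h2
    have h5 : 1 / (q:ℝ) ≤ 1 / 4 := one_div_le_one_div_of_le (by norm_num) hq4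
    have h6 := hmC (2 * rad d B q) (by positivity) (by linarith)
    refine (hm (Ap_diam hd (by omega) _)).trans (h6.trans ?_)
    rw [← ENNReal.ofReal_mul (by positivity)]
    apply ENNReal.ofReal_le_ofReal
    have h7 : Real.log (1 / (2 * rad d B q)) ≤ 2 * Real.log q := by
      have e1 : 1 / (2 * rad d B q) ≤ (q:ℝ) ^ 2 := by
        rw [div_le_iff₀ (by positivity)]
        have e2 : 1 ≤ (q:ℝ) ^ 2 * rad d B q := by
          rw [div_le_iff₀ (by positivity)] at h2
          linarith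
        nlinarith
      have e3 := Real.log_le_log (by positivity) e1
      rw [Real.log_pow] at e3
      exact_mod_cast e3
    have h8 : 0 ≤ Real.log (1 / (2 * rad d B q)) := by
      apply Real.log_nonneg
      rw [le_div_iff₀ (by positivity)]
      linarith
    calc C * ((2 * rad d B q) ^ d * Real.log (1 / (2 * rad d B q)) ^ K)
        ≤ C * ((2 * rad d B q) ^ d * (2 * Real.log q) ^ K) := by
          apply mul_le_mul_of_nonneg_left _ hC
          apply mul_le_mul_of_nonneg_left _ (by positivity)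
          exact pow_le_pow_left₀ h8 h7 K
      _ = C * 2 ^ (d + K) * ((Real.log q) ^ (B + K) / (q:ℝ) ^ (d + 1)) := by
          rw [mul_pow, rad_pow hd (by omega), mul_pow, pow_add, pow_add (Real.log q)]
          ring

end Pool.Agent.D0H48.Hl
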