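import Mathlib
import Pool.Agent.H373R2.T7.Tuple4
import Pool.Agent.H373R2.T7.SingLow
import Pool.Agent.H560R3.GB.Tup3

/-!
The formula of Hardy and Littlewood: exceptional vectors of polynomial shifts, uniformly in `N`.
-/

set_option autoImplicit false

open Filter Topology Finset
open Pool.Agent.H373R2.T7 (singZ tupleCount Admissible singZ_low tuples_full cf abs_eval_le)
open Pool.Agent.H560R3.GB (primeTuples tuple_transfer)

namespace Pool.Agent.D0H48.Hl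

open Polynomial in
/-- a polynomial with positive leading coefficient is positive at large integers -/
lemma eval_pos (f : ℤ[X]) (hd : 1 ≤ f.natDegree) (hl : 0 < f.leadingCoeff) : ∃ n0 : ℕ, ∀ m : ℕ, n0 ≤ m → 0 < f.eval (m : ℤ) := by
  set P : ℝ[X] := f.map (Int.castRingHom ℝ) with hP
  have hinj : Function.Injective (Int.castRingHom ℝ) := Int.cast_injective
  have hdeg : 0 < P.degree := by
    rw [hP, degree_map_eq_of_injective hinj, ← natDegree_pos_iff_degree_pos]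
    omega
  have hlc : 0 ≤ P.leadingCoeff := by
    rw [hP, leadingCoeff_map_of_injective hinj, eq_intCast]
    exact_mod_cast hl.le
  have ht := (P.tendsto_atTop_of_leadingCoeff_nonneg hdeg hlc).comp (tendsto_natCast_atTop_atTop (R := ℝ))
  obtain ⟨n0, h0⟩ := Filter.eventually_atTop.1 (ht.eventually_ge_atTop 1)
  refine ⟨n0, fun m hm => ?_⟩
  have h1 := h0 m hm
  simp only [Function.comp] at h1
  have h2 : P.eval (m : ℝ) = ((f.eval (m : ℤ) : ℤ) : ℝ) := by
    rw [hP]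
    simp
  rw [h2] at h1
  have h3 : (1:ℤ) ≤ f.eval (m:ℤ) := by exact_mod_cast h1
  omega

/-- the number of the primes `p ≤ N` for which all `p + v i` are primes -/
def pc {s : ℕ} (v : Fin s → ℤ) (N : ℕ) : ℕ :=
  ((Icc 1 N).filter (fun p : ℕ => p.Prime ∧ ∀ i, ((p : ℤ) + v i).toNat.Prime)).card

/-- the formula of Hardy and Littlewood for `N` and the shifts `v` -/
def HLd {s : ℕ} (ε : ℝ) (N : ℕ) (v : Fin s → ℤ) : Prop :=
  ∃ S : ℝ, Tendsto (fun z => singZ v z) atTop (𝓝 S) ∧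
    (Admissible v → 0 < S ∧ |(pc v N : ℝ) - S * (N / Real.log N ^ (s + 1))| ≤ ε * (S * (N / Real.log N ^ (s + 1))))

lemma ev_log1 : ∃ n0 : ℕ, ∀ N : ℕ, n0 ≤ N → 1 ≤ Real.log N := by
  have h : ∀ᶠ N : ℕ in atTop, 1 ≤ Real.log N :=
    (Real.tendsto_log_atTop.comp tendsto_natCast_atTop_atTop).eventually_ge_atTop 1
  exact eventually_atTop.mp h

open Classical in
/-- the average over a box -/
lemma box (s : ℕ) (hs : 1 ≤ s) (f : Fin s → Polynomial ℤ) {D : ℕ} (hD1 : 1 ≤ D) (hD : ∀ i, (f i).natDegree = D)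
    (hl : ∀ i, 0 < (f i).leadingCoeff) (K : ℕ) (hK : 1 ≤ K) {ε : ℝ} (hε : 0 < ε) (U : ℕ) : ∃ N0 : ℕ, ∀ N : ℕ, N0 ≤ N →
    ∀ X : ℕ, N ≤ K * X ^ D → X ^ D ≤ K * N →
    (((Fintype.piFinset (fun _ : Fin s => Icc 1 X)).filter (fun m =>
      (∀ i, 0 < (f i).eval (m i : ℤ)) ∧ ¬ HLd ε N (fun i => (f i).eval (m i : ℤ)))).card : ℝ) ≤
      (X:ℝ) ^ s / (Real.log N) ^ U := by
  obtain ⟨c, hc, hlow⟩ := singZ_low s
  obtain ⟨n1, h1⟩ := tuples_full hs f (fun i => by rw [hD i]; exact hD1) hl K hK (U + 1)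
  obtain ⟨B', hB'⟩ : ∃ B', B' = univ.sup (fun i => cf (f i)) * K := ⟨_, rfl⟩
  obtain ⟨n2, h2⟩ := tuple_transfer s B' c ε hc hε
  obtain ⟨n3, h3⟩ := ev_log1
  refine ⟨n1 + n2 + n3, fun N hN X hX1 hX2 => ?_⟩
  have hL := h3 N (by omega)
  have hL0 : 0 < Real.log N := by linarith
  have g1 := h1 N (by omega) (fun _ => X) (fun i => by rw [hD i]; exact ⟨hX1, hX2⟩)
  have hsub : ((Fintype.piFinset (fun _ : Fin s => Icc 1 X)).filter (fun m =>
      (∀ i, 0 < (f i).eval (m i : ℤ)) ∧ ¬ HLd ε N (fun i => (f i).eval (m i : ℤ)))) ⊆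
      ((Fintype.piFinset (fun _ : Fin s => Icc 1 X)).filter (fun m : Fin s → ℕ =>
        ¬ ∃ S : ℝ, Tendsto (fun z => singZ (fun i => (f i).eval (m i : ℤ)) z) atTop (𝓝 S) ∧
        |tupleCount (fun i => (f i).eval (m i : ℤ)) N - S * N| ≤ (N : ℝ) / Real.log N ^ (U + 1))) := by
    intro m hm
    rw [mem_filter] at hm ⊢
    refine ⟨hm.1, fun ⟨S, hS1, hS2⟩ => hm.2.2 ?_⟩
    refine ⟨S, hS1, fun hadm => ?_⟩
    have hcS : c ≤ S := ge_of_tendsto' hS1 (hlow _ hadm)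
    refine ⟨lt_of_lt_of_le hc hcS, ?_⟩
    obtain ⟨w, hw⟩ : ∃ w : Fin s → ℕ, w = fun i => ((f i).eval (m i : ℤ)).toNat := ⟨_, rfl⟩
    have hwv : (fun i => (w i : ℤ)) = fun i => (f i).eval (m i : ℤ) := by
      funext i
      rw [hw]
      exact Int.toNat_of_nonneg (hm.2.1 i).le
    have hpc : pc (fun i => (f i).eval (m i : ℤ)) N = primeTuples w N := by
      unfold pc primeTuples
      rw [← hwv]
      congr 1
    rw [hpc]
    apply h2 N (by omega) w _ S hcS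
    · rw [hwv]
      refine hS2.trans ?_
      apply div_le_div_of_nonneg_left (Nat.cast_nonneg _) hL0
      exact le_self_pow₀ hL (by omega)
    · intro i
      have hmi := mem_Icc.mp ((Fintype.mem_piFinset.mp hm.1) i)
      have e1 := abs_eval_le (f i) (m i) hmi.1
      have e2 : (w i : ℤ) = (f i).eval (m i : ℤ) := congrFun hwv i
      have e3 : (w i : ℤ) ≤ ((cf (f i) * (m i) ^ D : ℕ) : ℤ) := by
        rw [e2]
        push_cast
        rw [← hD i]
        exact (le_abs_self _).trans e1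
      have e4 : w i ≤ cf (f i) * (m i) ^ D := by exact_mod_cast e3
      rw [hB']
      calc w i ≤ cf (f i) * (m i) ^ D := e4
        _ ≤ univ.sup (fun i => cf (f i)) * X ^ D :=
            Nat.mul_le_mul (le_sup (f := fun i => cf (f i)) (mem_univ i)) (Nat.pow_le_pow_left hmi.2 _)
        _ ≤ univ.sup (fun i => cf (f i)) * (K * N) := Nat.mul_le_mul_left _ hX2
        _ = _ := by ring
  have g2 : (((Fintype.piFinset (fun _ : Fin s => Icc 1 X)).filter (fun m =>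
      (∀ i, 0 < (f i).eval (m i : ℤ)) ∧ ¬ HLd ε N (fun i => (f i).eval (m i : ℤ)))).card : ℝ) ≤
      (∏ _i : Fin s, (X : ℝ)) / Real.log N ^ (U + 1) := by
    refine le_trans ?_ g1
    exact_mod_cast card_le_card hsub
  refine g2.trans ?_
  rw [prod_const, card_univ, Fintype.card_fin]
  apply div_le_div_of_nonneg_left (by positivity) (by positivity)
  exact pow_le_pow_right₀ hL (by omega)

lemma pc_mono {s : ℕ} (v : Fin s → ℤ) {N N' : ℕ} (h : N ≤ N') : pc v N ≤ pc v N' := by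
  unfold pc
  apply card_le_card
  apply filter_subset_filter
  exact Icc_subset_Icc le_rfl h

lemma num1 {e S f g P P' : ℝ} (he : 0 ≤ e) (he1 : e ≤ 1 / 4) (hS : 0 < S) (hf : 0 ≤ f) (hfg : g ≤ (1 + e) * f)
    (hP : |P' - S * g| ≤ e * (S * g)) (hPP : P ≤ P') : P - S * f ≤ 4 * e * (S * f) := by
  have h1 := (abs_le.mp hP).2
  have hSf : 0 ≤ S * f := mul_nonneg hS.le hf
  have h2 : S * g ≤ (1 + e) * (S * f) := by
    have := mul_le_mul_of_nonneg_left hfg hS.le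
    linarith
  have h3 : P ≤ (1 + e) * (S * g) := by linarith
  have h4 : (1 + e) * (S * g) ≤ (1 + e) * ((1 + e) * (S * f)) := mul_le_mul_of_nonneg_left h2 (by linarith)
  have h5 : (1 + e) * (1 + e) ≤ 1 + 4 * e := by nlinarith
  nlinarith [mul_le_mul_of_nonneg_right h5 hSf]

lemma num2 {e S f g P P' : ℝ} (he : 0 ≤ e) (he1 : e ≤ 1 / 4) (hS : 0 < S) (hf : 0 ≤ f) (hfg : (1 - e) * f ≤ g)
    (hP : |P' - S * g| ≤ e * (S * g)) (hPP : P' ≤ P) : S * f - P ≤ 4 * e * (S * f) := by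
  have h1 := (abs_le.mp hP).1
  have hSf : 0 ≤ S * f := mul_nonneg hS.le hf
  have h2 : (1 - e) * (S * f) ≤ S * g := by
    have := mul_le_mul_of_nonneg_left hfg hS.le
    linarith
  have h3 : (1 - e) * (S * g) ≤ P := by linarith
  have h4 : (1 - e) * ((1 - e) * (S * f)) ≤ (1 - e) * (S * g) := mul_le_mul_of_nonneg_left h2 (by linarith)
  nlinarith [mul_nonneg (mul_nonneg he he) hSf, mul_nonneg he hSf]

/-- interpolation between two values of `N` -/
lemma interp {s : ℕ} {ε : ℝ} (hε : 0 < ε) (hε1 : ε ≤ 1) {M : ℕ} (hM : 4 ≤ ε * M) {Na N Nb : ℕ} {v : Fin s → ℤ}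
    (h1 : Na ≤ N) (h2 : N ≤ Nb) (h3 : M * (Nb - Na) ≤ Na) (hlog : 1 ≤ Real.log Na)
    (ha : HLd (ε / 4) Na v) (hb : HLd (ε / 4) Nb v) : HLd ε N v := by
  obtain ⟨S, hS, hSa⟩ := ha
  obtain ⟨S', hS', hSb⟩ := hb
  have hSS : S' = S := tendsto_nhds_unique hS' hS
  subst hSS
  refine ⟨S', hS, fun hadm => ?_⟩
  obtain ⟨hS0, ka⟩ := hSa hadm
  obtain ⟨-, kb⟩ := hSb hadm
  refine ⟨hS0, ?_⟩
  have hNa0 : Na ≠ 0 := by
    rintro rfl
    simp at hlog
    linarith
  have hNa : (0:ℝ) < Na := by exact_mod_cast Nat.pos_of_ne_zero hNa0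
  have hN : (0:ℝ) < N := by exact_mod_cast (by omega : 0 < N)
  have hNb : (0:ℝ) < Nb := by exact_mod_cast (by omega : 0 < Nb)
  have h1r : (Na:ℝ) ≤ N := by exact_mod_cast h1
  have h2r : (N:ℝ) ≤ Nb := by exact_mod_cast h2
  have hMp : (0:ℝ) < M := by
    by_contra hcon
    have : (M:ℝ) = 0 := le_antisymm (not_lt.mp hcon) (Nat.cast_nonneg _)
    rw [this] at hM
    linarith
  have h3r : (M:ℝ) * ((Nb:ℝ) - Na) ≤ Na := by
    have : ((M * (Nb - Na) : ℕ) : ℝ) ≤ Na := by exact_mod_cast h3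
    rw [Nat.cast_mul, Nat.cast_sub (h1.trans h2)] at this
    exact this
  have hdiff : (Nb:ℝ) - Na ≤ ε / 4 * Na := by
    have e1 : (Nb:ℝ) - Na ≤ Na / M := by
      rw [le_div_iff₀ hMp]; linarith
    refine e1.trans ?_
    rw [div_le_iff₀ hMp]
    have := mul_le_mul_of_nonneg_left hM hNa.le
    linarith
  have hL1 : Real.log Na ≤ Real.log N := Real.log_le_log hNa h1r
  have hL2 : Real.log N ≤ Real.log Nb := Real.log_le_log hN h2r
  have hLa : 0 < Real.log Na := by linarith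
  have hLN : 0 < Real.log N := by linarith
  have hLb : 0 < Real.log Nb := by linarith
  have hfb : (Nb:ℝ) / Real.log Nb ^ (s + 1) ≤ (1 + ε / 4) * (N / Real.log N ^ (s + 1)) := by
    calc (Nb:ℝ) / Real.log Nb ^ (s + 1) ≤ (Nb:ℝ) / Real.log N ^ (s + 1) :=
          div_le_div_of_nonneg_left hNb.le (by positivity) (pow_le_pow_left₀ hLN.le hL2 _)
      _ ≤ ((1 + ε / 4) * N) / Real.log N ^ (s + 1) := by
          apply div_le_div_of_nonneg_right _ (by positivity)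
          have := mul_le_mul_of_nonneg_left h1r (by positivity : (0:ℝ) ≤ ε / 4)
          linarith
      _ = _ := by ring
  have hfa : (1 - ε / 4) * (N / Real.log N ^ (s + 1)) ≤ (Na:ℝ) / Real.log Na ^ (s + 1) := by
    calc (1 - ε / 4) * (N / Real.log N ^ (s + 1)) = ((1 - ε / 4) * N) / Real.log N ^ (s + 1) := by ring
      _ ≤ (Na:ℝ) / Real.log N ^ (s + 1) := by
          apply div_le_div_of_nonneg_right _ (by positivity)
          have := mul_le_mul_of_nonneg_left h1r (by positivity : (0:ℝ) ≤ ε / 4)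
          linarith
      _ ≤ _ := div_le_div_of_nonneg_left hNa.le (by positivity) (pow_le_pow_left₀ hLa.le hL1 _)
  have hp1 : (pc v N : ℝ) ≤ pc v Nb := by exact_mod_cast pc_mono v h2
  have hp2 : (pc v Na : ℝ) ≤ pc v N := by exact_mod_cast pc_mono v h1
  have q1 := num1 (e := ε / 4) (by positivity) (by linarith) hS0 (by positivity) hfb kb hp1
  have q2 := num2 (e := ε / 4) (by positivity) (by linarith) hS0 (by positivity) hfa ka hp2
  have e4 : 4 * (ε / 4) = ε := by ring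
  rw [e4] at q1 q2
  rw [abs_le]
  constructor <;> linarith

open Classical in
/-- the values of `N` which have to be considered -/
noncomputable def grid (D M B j : ℕ) : Finset ℕ :=
  (((Icc M (2 * M)) ×ˢ (range (2 * j * D + 1))).image (fun y => y.1 * 2 ^ y.2)).filter
    (fun N => 2 ^ (j * D) ≤ 2 * B * N ∧ N ≤ 2 * (2 ^ D * (j + 1) ^ B * 2 ^ (j * D)))

lemma grid_card (D M B j : ℕ) : (grid D M B j).card ≤ (M + 1) * (2 * j * D + 1) := by
  classical
  unfold grid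
  refine (card_filter_le _ _).trans (card_image_le.trans (le_of_eq ?_))
  rw [card_product, Nat.card_Icc, card_range]
  congr 1
  omega

/-- the shifts -/
def pv {d : ℕ} (f : Fin (d + 1) → Polynomial ℤ) (q : ℕ) (a : Fin d → ℕ) : Fin (d + 1) → ℤ :=
  fun i => (f i).eval (((Fin.cons q a : Fin (d + 1) → ℕ) i : ℕ) : ℤ)

open Classical in
/-- the bad shifts -/
noncomputable def Bd {d : ℕ} (f : Fin (d + 1) → Polynomial ℤ) (D A B M : ℕ) (ε : ℝ) (j : ℕ) : Finset (ℕ × (Fin d → ℕ)) :=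
  ((Ico (2 ^ j) (2 ^ (j + 1))) ×ˢ Fintype.piFinset (fun _ : Fin d => Icc 1 (A * 2 ^ (j + 1)))).filter
    (fun x => (∀ i, 0 < pv f x.1 x.2 i) ∧ ∃ N ∈ grid D M B j, ¬ HLd ε N (pv f x.1 x.2))

/-- the grid catches all the values of `N` -/
lemma catch_bad {d : ℕ} (f : Fin (d + 1) → Polynomial ℤ) {D A B M : ℕ} (hD : 1 ≤ D) (hB : 1 ≤ B) (hM1 : 1 ≤ M) {ε : ℝ} (hε : 0 < ε)
    (hε1 : ε ≤ 1) (hM : 4 ≤ ε * M) :
    ∃ j0 : ℕ, ∀ j : ℕ, j0 ≤ j → ∀ q : ℕ, 2 ^ j ≤ q → q < 2 ^ (j + 1) → ∀ a : Fin d → ℕ, (∀ i, 1 ≤ a i ∧ a i ≤ A * q) →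
    (∀ i, 0 < pv f q a i) →
    ∀ N : ℕ, q ^ D ≤ B * N → (N:ℝ) ≤ (q:ℝ) ^ D * (Real.log q) ^ B → ¬ HLd ε N (pv f q a) →
    (q, a) ∈ Bd f D A B M (ε / 4) j := by
  obtain ⟨n0, hn0⟩ := ev_log1
  -- growth conditions
  have c1 : ∀ᶠ j : ℕ in atTop, ((2:ℝ) ^ D * ((j:ℝ) + 1) ^ B) ≤ 2 ^ j := by
    have h1 : Tendsto (fun j : ℕ => ((j:ℝ)) ^ B * (1 / 2) ^ j) atTop (𝓝 0) :=
      tendsto_pow_const_mul_const_pow_of_abs_lt_one B (by rw [abs_of_pos] <;> norm_num)
    have h2 := ((h1.comp (tendsto_add_atTop_nat 1)).const_mul (2 ^ D * 2)).eventually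
      (gt_mem_nhds (by norm_num : 2 ^ D * 2 * (0:ℝ) < 1))
    filter_upwards [h2] with j hj
    simp only [Function.comp_apply] at hj
    push_cast at hj
    have h3 : (1 / 2 : ℝ) ^ (j + 1) = 1 / (2 * 2 ^ j) := by rw [one_div_pow, pow_succ]; ring
    rw [h3] at hj
    have h4 : (0:ℝ) < 2 ^ j := by positivity
    rw [mul_one_div, ← mul_div_assoc, div_lt_one (by positivity)] at hj
    linarith
  obtain ⟨j1, hj1⟩ := eventually_atTop.mp c1
  refine ⟨j1 + M * B + 2 * B * n0 + 1, fun j hj q hq1 hq2 a ha hpos N hN1 hN2 hbad => ?_⟩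
  classical
  have hjlt : j < 2 ^ (j * D) := by
    calc j < 2 ^ j := Nat.lt_two_pow_self
      _ ≤ _ := Nat.pow_le_pow_right (by norm_num) (Nat.le_mul_of_pos_right _ hD)
  have hMB : M * B ≤ j := by omega
  have hqD : 2 ^ (j * D) ≤ q ^ D := by
    rw [pow_mul]
    exact Nat.pow_le_pow_left hq1 D
  have hNM : M ≤ N := by
    by_contra hcon
    push Not at hcon
    have : B * N < B * M := Nat.mul_lt_mul_of_pos_left hcon (by omega)
    have : B * M = M * B := mul_comm _ _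
    omega
  obtain ⟨i, hi⟩ : ∃ i, i = Nat.log 2 (N / M) := ⟨_, rfl⟩
  have hdiv : N / M ≠ 0 := by
    rw [Nat.div_ne_zero_iff]
    exact ⟨by omega, hNM⟩
  have hi1 : 2 ^ i ≤ N / M := by rw [hi]; exact Nat.pow_log_le_self 2 hdiv
  have hi2 : N / M < 2 ^ (i + 1) := by rw [hi]; exact Nat.lt_pow_succ_log_self (by norm_num) _
  have hi3 : M * 2 ^ i ≤ N := by
    calc M * 2 ^ i ≤ M * (N / M) := Nat.mul_le_mul_left _ hi1
      _ ≤ N := Nat.mul_div_le _ _
  have hi4 : N < 2 * M * 2 ^ i := by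
    have h1 : N < M * (N / M + 1) := Nat.lt_mul_div_succ _ (by omega)
    have h2 : M * (N / M + 1) ≤ M * 2 ^ (i + 1) := Nat.mul_le_mul_left _ hi2
    have h3 : M * 2 ^ (i + 1) = 2 * M * 2 ^ i := by rw [pow_succ]; ring
    omega
  obtain ⟨P, hP⟩ : ∃ P, P = 2 ^ i := ⟨_, rfl⟩
  have hP0 : 0 < P := by rw [hP]; positivity
  obtain ⟨u, hu⟩ : ∃ u, u = N / P := ⟨_, rfl⟩
  rw [← hP] at hi3 hi4
  have hu1 : M ≤ u := by rw [hu]; exact (Nat.le_div_iff_mul_le hP0).mpr hi3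
  have hu2 : u < 2 * M := by rw [hu]; exact (Nat.div_lt_iff_lt_mul hP0).mpr hi4
  have hu3 : u * P ≤ N := by rw [hu]; exact Nat.div_mul_le_self _ _
  have hu4 : N ≤ (u + 1) * P := by
    have := Nat.lt_mul_div_succ N hP0
    rw [← hu, mul_comm] at this
    exact this.le
  -- sizes
  have hqr : (q:ℝ) ≤ 2 ^ (j + 1) := by exact_mod_cast hq2.le
  have hq0 : (0:ℝ) < q := by
    have : 0 < q := lt_of_lt_of_le (by positivity) hq1
    exact_mod_cast this
  have hq01 : (1:ℝ) ≤ q := by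
    have : 1 ≤ q := le_trans Nat.one_le_two_pow hq1
    exact_mod_cast this
  have hlogq : Real.log q ≤ (j:ℝ) + 1 := by
    have h1 := Real.log_le_log hq0 hqr
    rw [Real.log_pow] at h1
    have := Real.log_two_lt_d9
    push_cast at h1
    have hj0 : (0:ℝ) ≤ j := Nat.cast_nonneg j
    nlinarith
  have hNup : (N:ℝ) ≤ 2 ^ D * ((j:ℝ) + 1) ^ B * 2 ^ (j * D) := by
    calc (N:ℝ) ≤ (q:ℝ) ^ D * (Real.log q) ^ B := hN2
      _ ≤ (2 ^ (j + 1)) ^ D * ((j:ℝ) + 1) ^ B := by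
          apply mul_le_mul (pow_le_pow_left₀ hq0.le hqr D) _ (by have := Real.log_nonneg hq01; positivity) (by positivity)
          exact pow_le_pow_left₀ (Real.log_nonneg hq01) hlogq B
      _ = _ := by rw [pow_succ, mul_pow, ← pow_mul]; ring
  have hNup' : N ≤ 2 ^ D * (j + 1) ^ B * 2 ^ (j * D) := by exact_mod_cast hNup
  have hNj : N ≤ 2 ^ (2 * j * D) := by
    have h1 := hj1 j (by omega)
    have h2 : (N:ℝ) ≤ 2 ^ (2 * j * D) := by
      calc (N:ℝ) ≤ 2 ^ D * ((j:ℝ) + 1) ^ B * 2 ^ (j * D) := hNup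
        _ ≤ 2 ^ j * 2 ^ (j * D) := mul_le_mul_of_nonneg_right h1 (by positivity)
        _ ≤ 2 ^ (j * D) * 2 ^ (j * D) := by
            apply mul_le_mul_of_nonneg_right _ (by positivity)
            exact pow_le_pow_right₀ (by norm_num) (Nat.le_mul_of_pos_right _ hD)
        _ = _ := by rw [← pow_add]; congr 1; ring
    exact_mod_cast h2
  have hij : i ≤ 2 * j * D := by
    have h1 : 2 ^ i ≤ 2 ^ (2 * j * D) := by
      rw [← hP]
      calc P = 1 * P := (one_mul _).symm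
        _ ≤ M * P := Nat.mul_le_mul_right _ hM1
        _ ≤ N := hi3
        _ ≤ _ := hNj
    exact (Nat.pow_le_pow_iff_right (by norm_num)).mp h1
  have hPN : P ≤ N := by
    calc P = 1 * P := (one_mul _).symm
      _ ≤ M * P := Nat.mul_le_mul_right _ hM1
      _ ≤ N := hi3
  have hMr : (4:ℝ) ≤ M := by
    have : ε * (M:ℝ) ≤ 1 * M := mul_le_mul_of_nonneg_right hε1 (Nat.cast_nonneg _)
    linarith
  have hM4 : 4 ≤ M := by exact_mod_cast hMr
  have hupN : N ≤ 2 * (u * P) := by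
    have e1 : (u + 1) * P = u * P + P := by ring
    have e2 : P ≤ u * P := Nat.le_mul_of_pos_left _ (by omega)
    omega
  have hlow : 2 ^ (j * D) ≤ 2 * B * (u * P) := by
    calc 2 ^ (j * D) ≤ q ^ D := hqD
      _ ≤ B * N := hN1
      _ ≤ B * (2 * (u * P)) := Nat.mul_le_mul_left _ hupN
      _ = _ := by ring
  -- the two grid points
  have hga : u * P ∈ grid D M B j := by
    unfold grid
    rw [mem_filter, mem_image]
    refine ⟨⟨(u, i), ?_, by rw [hP]⟩, hlow, ?_⟩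
    · rw [mem_product, mem_Icc, mem_range]
      exact ⟨⟨hu1, hu2.le⟩, Nat.lt_succ_of_le hij⟩
    · calc u * P ≤ N := hu3
        _ ≤ 2 ^ D * (j + 1) ^ B * 2 ^ (j * D) := hNup'
        _ ≤ _ := Nat.le_mul_of_pos_left _ (by norm_num)
  have hgb : (u + 1) * P ∈ grid D M B j := by
    unfold grid
    rw [mem_filter, mem_image]
    refine ⟨⟨(u + 1, i), ?_, by rw [hP]⟩, ?_, ?_⟩
    · rw [mem_product, mem_Icc, mem_range]
      exact ⟨⟨by show M ≤ u + 1; omega, by show u + 1 ≤ 2 * M; omega⟩, Nat.lt_succ_of_le hij⟩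
    · refine hlow.trans (Nat.mul_le_mul_left _ (Nat.mul_le_mul_right _ (by omega)))
    · calc (u + 1) * P = u * P + P := by ring
        _ ≤ N + N := Nat.add_le_add hu3 hPN
        _ ≤ 2 ^ D * (j + 1) ^ B * 2 ^ (j * D) + 2 ^ D * (j + 1) ^ B * 2 ^ (j * D) := Nat.add_le_add hNup' hNup'
        _ = _ := by ring
  unfold Bd
  rw [mem_filter, mem_product, mem_Ico, Fintype.mem_piFinset]
  refine ⟨⟨⟨hq1, hq2⟩, fun i => ?_⟩, hpos, ?_⟩
  · rw [mem_Icc]
    refine ⟨(ha i).1, (ha i).2.trans (Nat.mul_le_mul_left _ hq2.le)⟩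
  · by_contra hcon
    push Not at hcon
    have ka := hcon _ hga
    have kb := hcon _ hgb
    refine hbad (interp hε hε1 hM hu3 hu4 ?_ ?_ ka kb)
    · have e1 : (u + 1) * P - u * P = P := by rw [add_mul, one_mul, Nat.add_sub_cancel_left]
      rw [e1]
      exact Nat.mul_le_mul_right _ hu1
    · apply hn0
      by_contra hc2
      push Not at hc2
      have e1 : 2 * B * (u * P) ≤ 2 * B * n0 := Nat.mul_le_mul_left _ hc2.le
      omega

end Pool.Agent.D0H48.Hl
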