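import Mathlib
import Pool.Agent.D0H48.Hl.Avg
import Pool.Agent.D0H48.Hl.Gauge

/-!
The number of the bad shifts, and the exceptional set.
-/

set_option autoImplicit false

open Filter Topology Finset MeasureTheory
open scoped ENNReal

namespace Pool.Agent.D0H48.Hl

lemma grid_mem {D M B j N : ℕ} (h : N ∈ grid D M B j) : 2 ^ (j * D) ≤ 2 * B * N ∧ N ≤ 2 * (2 ^ D * (j + 1) ^ B * 2 ^ (j * D)) := by
  classical
  unfold grid at h
  exact (mem_filter.mp h).2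

/-- the side of the box -/
lemma side {D A B j N : ℕ} (hD : 1 ≤ D) (hA : 1 ≤ A) (h1 : 2 ^ (j * D) ≤ 2 * B * N)
    (h2 : N ≤ 2 * (2 ^ D * (j + 1) ^ B * 2 ^ (j * D))) (hN : 2 ≤ N) :
    ∃ X : ℕ, A * 2 ^ (j + 1) ≤ X ∧ N ≤ (2 ^ D + (2 * A) ^ D * (2 * B)) * X ^ D ∧ X ^ D ≤ (2 ^ D + (2 * A) ^ D * (2 * B)) * N ∧
      X ≤ (8 + 2 * A) * (j + 1) ^ B * 2 ^ j := by
  classical
  have hex : ∃ x : ℕ, N ≤ x ^ D := ⟨N, Nat.le_self_pow (by omega) N⟩
  obtain ⟨X0, hX0⟩ : ∃ X0, X0 = Nat.find hex := ⟨_, rfl⟩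
  have hX1 : N ≤ X0 ^ D := by rw [hX0]; exact Nat.find_spec hex
  have hX02 : 2 ≤ X0 := by
    by_contra hcon
    have h3 : X0 ≤ 1 := by omega
    have h4 : X0 ^ D ≤ 1 ^ D := Nat.pow_le_pow_left h3 D
    rw [one_pow] at h4
    omega
  have hX2 : (X0 - 1) ^ D < N := by
    have := Nat.find_min hex (m := X0 - 1) (by rw [← hX0]; omega)
    omega
  have hX3 : X0 ^ D ≤ 2 ^ D * N := by
    calc X0 ^ D ≤ (2 * (X0 - 1)) ^ D := Nat.pow_le_pow_left (by omega) D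
      _ = 2 ^ D * (X0 - 1) ^ D := mul_pow _ _ _
      _ ≤ _ := Nat.mul_le_mul_left _ hX2.le
  have hA1 : (A * 2 ^ (j + 1)) ^ D ≤ (2 * A) ^ D * (2 * B) * N := by
    calc (A * 2 ^ (j + 1)) ^ D = (2 * A) ^ D * 2 ^ (j * D) := by
          rw [pow_mul 2 j D, ← mul_pow]
          congr 1
          rw [pow_succ]; ring
      _ ≤ (2 * A) ^ D * (2 * B * N) := Nat.mul_le_mul_left _ h1
      _ = _ := by ring
  have hX4 : X0 ≤ 8 * (j + 1) ^ B * 2 ^ j := by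
    have h3 : X0 ^ D ≤ (8 * (j + 1) ^ B * 2 ^ j) ^ D := by
      calc X0 ^ D ≤ 2 ^ D * N := hX3
        _ ≤ 2 ^ D * (2 * (2 ^ D * (j + 1) ^ B * 2 ^ (j * D))) := Nat.mul_le_mul_left _ h2
        _ = (2 * (2 ^ D * 2 ^ D)) * (j + 1) ^ B * 2 ^ (j * D) := by ring
        _ ≤ (8 ^ D) * ((j + 1) ^ B) ^ D * 2 ^ (j * D) := by
            apply Nat.mul_le_mul_right
            apply Nat.mul_le_mul
            · calc 2 * (2 ^ D * 2 ^ D) ≤ 2 ^ D * (2 ^ D * 2 ^ D) := Nat.mul_le_mul_right _ (Nat.le_self_pow (by omega) 2)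
                _ = 8 ^ D := by rw [← mul_pow, ← mul_pow]; norm_num
            · exact Nat.le_self_pow (by omega) _
        _ = _ := by rw [mul_pow, mul_pow, pow_mul 2 j D]
    exact (Nat.pow_le_pow_iff_left (by omega)).mp h3
  have hpos : 1 ≤ (j + 1) ^ B := Nat.one_le_pow _ _ (by omega)
  refine ⟨max X0 (A * 2 ^ (j + 1)), le_max_right _ _, ?_, ?_, ?_⟩
  · calc N ≤ X0 ^ D := hX1
      _ ≤ (max X0 (A * 2 ^ (j + 1))) ^ D := Nat.pow_le_pow_left (le_max_left _ _) D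
      _ ≤ _ := Nat.le_mul_of_pos_left _ (by positivity)
  · rcases le_total X0 (A * 2 ^ (j + 1)) with h | h
    · rw [max_eq_right h]
      exact hA1.trans (Nat.mul_le_mul_right _ (Nat.le_add_left _ _))
    · rw [max_eq_left h]
      exact hX3.trans (Nat.mul_le_mul_right _ (Nat.le_add_right _ _))
  · apply max_le
    · refine hX4.trans (Nat.mul_le_mul_right _ (Nat.mul_le_mul_right _ (by omega)))
    · calc A * 2 ^ (j + 1) = 2 * A * 1 * 2 ^ j := by rw [pow_succ]; ring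
        _ ≤ (8 + 2 * A) * (j + 1) ^ B * 2 ^ j := Nat.mul_le_mul_right _ (Nat.mul_le_mul (by omega) hpos)

open Classical in
lemma inj_card {d : ℕ} (f : Fin (d + 1) → Polynomial ℤ) {A j N X : ℕ} {ε : ℝ} (hA : 1 ≤ A) (hX : A * 2 ^ (j + 1) ≤ X) :
    ((((Ico (2 ^ j) (2 ^ (j + 1))) ×ˢ Fintype.piFinset (fun _ : Fin d => Icc 1 (A * 2 ^ (j + 1)))).filter
      (fun x => (∀ i, 0 < pv f x.1 x.2 i) ∧ ¬ HLd ε N (pv f x.1 x.2))).card) ≤
    ((Fintype.piFinset (fun _ : Fin (d + 1) => Icc 1 X)).filter (fun m =>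
      (∀ i, 0 < (f i).eval (m i : ℤ)) ∧ ¬ HLd ε N (fun i => (f i).eval (m i : ℤ)))).card := by
  apply card_le_card_of_injOn (fun x => (Fin.cons x.1 x.2 : Fin (d + 1) → ℕ))
  · intro x hx
    rw [mem_coe, mem_filter, mem_product, mem_Ico, Fintype.mem_piFinset] at hx
    rw [mem_coe, mem_filter, Fintype.mem_piFinset]
    refine ⟨fun i => ?_, hx.2⟩
    rw [mem_Icc]
    refine Fin.cases ?_ (fun i => ?_) i
    · show 1 ≤ (Fin.cons x.1 x.2 : Fin (d + 1) → ℕ) 0 ∧ (Fin.cons x.1 x.2 : Fin (d + 1) → ℕ) 0 ≤ X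
      rw [Fin.cons_zero]
      refine ⟨le_trans Nat.one_le_two_pow hx.1.1.1, ?_⟩
      calc x.1 ≤ 2 ^ (j + 1) := hx.1.1.2.le
        _ = 1 * 2 ^ (j + 1) := (one_mul _).symm
        _ ≤ A * 2 ^ (j + 1) := Nat.mul_le_mul_right _ hA
        _ ≤ _ := hX
    · show 1 ≤ (Fin.cons x.1 x.2 : Fin (d + 1) → ℕ) i.succ ∧ (Fin.cons x.1 x.2 : Fin (d + 1) → ℕ) i.succ ≤ X
      rw [Fin.cons_succ]
      have := mem_Icc.mp (hx.1.2 i)
      exact ⟨this.1, this.2.trans hX⟩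
  · intro x _ y _ hxy
    simp only at hxy
    have h1 := congrFun hxy 0
    rw [Fin.cons_zero, Fin.cons_zero] at h1
    have h2 : x.2 = y.2 := by
      funext i
      have := congrFun hxy i.succ
      rwa [Fin.cons_succ, Fin.cons_succ] at this
    exact Prod.ext h1 h2

/-- the number of the bad shifts -/
lemma Bd_card {d : ℕ} (f : Fin (d + 1) → Polynomial ℤ) {D : ℕ} (hD1 : 1 ≤ D) (hD : ∀ i, (f i).natDegree = D)
    (hl : ∀ i, 0 < (f i).leadingCoeff) (A B M : ℕ) (hA : 1 ≤ A) (hB : 1 ≤ B) {ε : ℝ} (hε : 0 < ε) (U : ℕ) : ∃ j0 : ℕ, ∀ j : ℕ, j0 ≤ j →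
    ((Bd f D A B M ε j).card : ℝ) ≤
      (((M + 1 : ℕ) : ℝ) * D) * (2 * (j + 1)) * (((8 + 2 * A : ℕ) : ℝ) * ((j:ℝ) + 1) ^ B * 2 ^ j) ^ (d + 1) * (4 ^ U / ((j:ℝ) + 1) ^ U) := by
  classical
  obtain ⟨N0, hbox⟩ := box (d + 1) (by omega) f hD1 hD hl (2 ^ D + (2 * A) ^ D * (2 * B)) (by
    have : 0 < 2 ^ D := by positivity
    omega) hε U
  obtain ⟨j1, hj1⟩ := exists_nat_ge (10 * Real.log (2 * B))
  refine ⟨j1 + 2 * B * (N0 + 2) + 2, fun j hj => ?_⟩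
  have hjlt : j < 2 ^ (j * D) := by
    calc j < 2 ^ j := Nat.lt_two_pow_self
      _ ≤ _ := Nat.pow_le_pow_right (by norm_num) (Nat.le_mul_of_pos_right _ hD1)
  have hB0 : (1:ℝ) ≤ B := by exact_mod_cast hB
  have hj2 : (2:ℝ) ≤ j := by exact_mod_cast (by omega : 2 ≤ j)
  have hsub : Bd f D A B M ε j ⊆ (grid D M B j).biUnion (fun N =>
      ((Ico (2 ^ j) (2 ^ (j + 1))) ×ˢ Fintype.piFinset (fun _ : Fin d => Icc 1 (A * 2 ^ (j + 1)))).filter
      (fun x => (∀ i, 0 < pv f x.1 x.2 i) ∧ ¬ HLd ε N (pv f x.1 x.2))) := by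
    intro x hx
    unfold Bd at hx
    rw [mem_filter] at hx
    obtain ⟨h1, h3, N, hN, h2⟩ := hx
    rw [mem_biUnion]
    exact ⟨N, hN, mem_filter.mpr ⟨h1, h3, h2⟩⟩
  have hterm : ∀ N ∈ grid D M B j, ((((Ico (2 ^ j) (2 ^ (j + 1))) ×ˢ Fintype.piFinset (fun _ : Fin d => Icc 1 (A * 2 ^ (j + 1)))).filter
      (fun x => (∀ i, 0 < pv f x.1 x.2 i) ∧ ¬ HLd ε N (pv f x.1 x.2))).card : ℝ) ≤
      (((8 + 2 * A : ℕ) : ℝ) * ((j:ℝ) + 1) ^ B * 2 ^ j) ^ (d + 1) * (4 ^ U / ((j:ℝ) + 1) ^ U) := by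
    intro N hN
    obtain ⟨h1, h2⟩ := grid_mem hN
    have hNN : N0 + 2 ≤ N := by
      by_contra hcon
      push Not at hcon
      have e1 : 2 * B * N ≤ 2 * B * (N0 + 2) := Nat.mul_le_mul_left _ hcon.le
      omega
    obtain ⟨X, hX1, hX2, hX3, hX4⟩ := side hD1 hA h1 h2 (by omega)
    have h3 : ((((Ico (2 ^ j) (2 ^ (j + 1))) ×ˢ Fintype.piFinset (fun _ : Fin d => Icc 1 (A * 2 ^ (j + 1)))).filter
      (fun x => (∀ i, 0 < pv f x.1 x.2 i) ∧ ¬ HLd ε N (pv f x.1 x.2))).card : ℝ) ≤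
      (X:ℝ) ^ (d + 1) / (Real.log N) ^ U := by
      refine le_trans ?_ (hbox N (by omega) X hX2 hX3)
      exact_mod_cast inj_card f hA hX1
    refine h3.trans ?_
    have h1r : (2:ℝ) ^ (j * D) ≤ 2 * B * N := by exact_mod_cast h1
    have hN0 : (0:ℝ) < N := by exact_mod_cast (by omega : 0 < N)
    have hlog : ((j:ℝ) + 1) / 4 ≤ Real.log N := by
      have e0 : (2:ℝ) ^ j ≤ 2 ^ (j * D) := pow_le_pow_right₀ (by norm_num) (Nat.le_mul_of_pos_right _ hD1)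
      have e1 : (2:ℝ) ^ j / (2 * B) ≤ N := by
        rw [div_le_iff₀ (by positivity)]
        linarith
      have e2 := Real.log_le_log (by positivity) e1
      rw [Real.log_div (by positivity) (by positivity), Real.log_pow] at e2
      have e3 := Real.log_two_gt_d9
      have e4 : (j1:ℝ) ≤ j := by exact_mod_cast (by omega : j1 ≤ j)
      have e5 : Real.log (2 * B) ≤ j / 10 := by linarith
      have e6 : (0.69:ℝ) * j ≤ j * Real.log 2 := by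
        rw [mul_comm (j:ℝ)]
        exact mul_le_mul_of_nonneg_right (by linarith) (by linarith)
      linarith
    rw [div_eq_mul_one_div]
    apply mul_le_mul
    · apply pow_le_pow_left₀ (by positivity)
      exact_mod_cast hX4
    · calc 1 / Real.log N ^ U ≤ 1 / (((j:ℝ) + 1) / 4) ^ U :=
            one_div_le_one_div_of_le (by positivity) (pow_le_pow_left₀ (by positivity) hlog U)
        _ = _ := by rw [div_pow, one_div_div]
    · have : 0 ≤ Real.log N := le_trans (by positivity) hlog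
      positivity
    · positivity
  have hfin : ((Bd f D A B M ε j).card : ℝ) ≤ ∑ N ∈ grid D M B j, ((((Ico (2 ^ j) (2 ^ (j + 1))) ×ˢ Fintype.piFinset (fun _ : Fin d => Icc 1 (A * 2 ^ (j + 1)))).filter
      (fun x => (∀ i, 0 < pv f x.1 x.2 i) ∧ ¬ HLd ε N (pv f x.1 x.2))).card : ℝ) := by
    exact_mod_cast (card_le_card hsub).trans card_biUnion_le
  refine hfin.trans ((sum_le_card_nsmul _ _ _ hterm).trans ?_)
  rw [nsmul_eq_mul, mul_assoc ((((M + 1 : ℕ) : ℝ) * D) * (2 * (j + 1)))]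
  apply mul_le_mul_of_nonneg_right _ (by positivity)
  have hc := grid_card D M B j
  have hc' : ((grid D M B j).card : ℝ) ≤ ((M + 1 : ℕ) : ℝ) * (2 * j * D + 1) := by exact_mod_cast hc
  refine hc'.trans ?_
  have hD0 : (1:ℝ) ≤ D := by exact_mod_cast hD1
  have hj3 : 2 * (j:ℝ) * D + 1 ≤ D * (2 * (j + 1)) := by nlinarith
  calc ((M + 1 : ℕ) : ℝ) * (2 * j * D + 1) ≤ ((M + 1 : ℕ) : ℝ) * (D * (2 * (j + 1))) :=
        mul_le_mul_of_nonneg_left hj3 (Nat.cast_nonneg _)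
    _ = _ := by ring

lemma num3 {m j a c t w p e1 : ℝ} (h : w ≤ m * (2 * j) * (a * p) * (t / e1)) (hc : 0 ≤ c) (hp : 0 < p) :
    w * (c / p) ≤ m * (2 * j) * a * (t / e1) * c := by
  have h1 : 0 ≤ c / p := by positivity
  calc w * (c / p) ≤ (m * (2 * j) * (a * p) * (t / e1)) * (c / p) := mul_le_mul_of_nonneg_right h h1
    _ = _ := by field_simp

/-- the weights of the bad shifts -/
lemma Bd_weight {d : ℕ} (f : Fin (d + 1) → Polynomial ℤ) {D : ℕ} (hD1 : 1 ≤ D) (hD : ∀ i, (f i).natDegree = D)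
    (hl : ∀ i, 0 < (f i).leadingCoeff) (A B M K : ℕ) (hA : 1 ≤ A) (hB : 1 ≤ B) {ε : ℝ} (hε : 0 < ε) : ∃ (j0 : ℕ) (C : ℝ), ∀ j : ℕ, j0 ≤ j →
    ∑ x ∈ Bd f D A B M ε j, (Real.log x.1) ^ K / (x.1 : ℝ) ^ (d + 1) ≤ C * (1 / ((j:ℝ) + 1) ^ 2) := by
  classical
  obtain ⟨U, hU⟩ : ∃ U, U = 1 + B * (d + 1) + K + 2 := ⟨_, rfl⟩
  obtain ⟨j0, hcard⟩ := Bd_card f hD1 hD hl A B M hA hB hε U
  refine ⟨j0, (((M + 1 : ℕ) : ℝ) * D) * 2 * ((8 + 2 * A : ℕ) : ℝ) ^ (d + 1) * 4 ^ U, fun j hj => ?_⟩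
  have hj0 : (0:ℝ) < (j:ℝ) + 1 := by positivity
  have hterm : ∀ x ∈ Bd f D A B M ε j, (Real.log x.1) ^ K / (x.1 : ℝ) ^ (d + 1) ≤ ((j:ℝ) + 1) ^ K / (2 ^ j) ^ (d + 1) := by
    intro x hx
    unfold Bd at hx
    rw [mem_filter, mem_product, mem_Ico] at hx
    obtain ⟨h1, h2⟩ := hx.1.1
    have h1r : (2:ℝ) ^ j ≤ x.1 := by exact_mod_cast h1
    have h2r : (x.1:ℝ) ≤ 2 ^ (j + 1) := by exact_mod_cast h2.le
    have h0 : (0:ℝ) < x.1 := lt_of_lt_of_le (by positivity) h1r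
    have h01 : (1:ℝ) ≤ x.1 := le_trans (one_le_pow₀ (by norm_num)) h1r
    have hl : Real.log x.1 ≤ (j:ℝ) + 1 := by
      have e1 := Real.log_le_log h0 h2r
      rw [Real.log_pow] at e1
      have := Real.log_two_lt_d9
      push_cast at e1
      nlinarith
    have hl0 := Real.log_nonneg h01
    apply div_le_div₀ (by positivity) (pow_le_pow_left₀ hl0 hl K) (by positivity) (pow_le_pow_left₀ (by positivity) h1r _)
  refine (sum_le_card_nsmul _ _ _ hterm).trans ?_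
  rw [nsmul_eq_mul]
  have h1 := hcard j hj
  have h2 : (((8 + 2 * A : ℕ) : ℝ) * ((j:ℝ) + 1) ^ B * 2 ^ j) ^ (d + 1) =
      (((8 + 2 * A : ℕ) : ℝ) ^ (d + 1) * ((j:ℝ) + 1) ^ (B * (d + 1))) * (2 ^ j) ^ (d + 1) := by
    rw [mul_pow, mul_pow, ← pow_mul]
  rw [h2] at h1
  have h3 := num3 h1 (by positivity : (0:ℝ) ≤ ((j:ℝ) + 1) ^ K) (by positivity : (0:ℝ) < (2 ^ j) ^ (d + 1))
  refine h3.trans (le_of_eq ?_)
  have e1 : ((j:ℝ) + 1) ^ U = ((j:ℝ) + 1) * ((j:ℝ) + 1) ^ (B * (d + 1)) * ((j:ℝ) + 1) ^ K * ((j:ℝ) + 1) ^ 2 := by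
    rw [hU, pow_add, pow_add, pow_add, pow_one]
  rw [e1]
  field_simp

/-- the set of all bad shifts -/
def BdS {d : ℕ} (f : Fin (d + 1) → Polynomial ℤ) (D A B M : ℕ) (ε : ℝ) : Set (ℕ × (Fin d → ℕ)) := ⋃ j : ℕ, (Bd f D A B M ε j : Set (ℕ × (Fin d → ℕ)))

lemma BdS_sum {d : ℕ} (f : Fin (d + 1) → Polynomial ℤ) {D : ℕ} (hD1 : 1 ≤ D) (hD : ∀ i, (f i).natDegree = D)
    (hl : ∀ i, 0 < (f i).leadingCoeff) (A B M K : ℕ) (hA : 1 ≤ A) (hB : 1 ≤ B) {ε : ℝ} (hε : 0 < ε) :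
    ∑' x : BdS f D A B M ε, ENNReal.ofReal ((Real.log x.1.1) ^ K / (x.1.1:ℝ) ^ (d + 1)) ≠ ∞ := by
  classical
  obtain ⟨j0, C, hC⟩ := Bd_weight f hD1 hD hl A B M K hA hB hε
  have hw0 : ∀ x : ℕ × (Fin d → ℕ), 0 ≤ (Real.log x.1) ^ K / (x.1:ℝ) ^ (d + 1) := fun x => by
    have := Real.log_natCast_nonneg x.1
    positivity
  obtain ⟨g, hg⟩ : ∃ g : ℕ → ℝ, g = fun j => ∑ x ∈ Bd f D A B M ε j, (Real.log x.1) ^ K / (x.1 : ℝ) ^ (d + 1) := ⟨_, rfl⟩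
  have hg0 : ∀ j, 0 ≤ g j := fun j => by
    rw [hg]
    exact sum_nonneg fun x _ => hw0 x
  have hgs : Summable g := by
    have h1 : Summable fun j : ℕ => C * (1 / ((j:ℝ) + 1) ^ 2) := by
      apply Summable.mul_left
      have := (summable_nat_add_iff 1).mpr (Real.summable_one_div_nat_pow.mpr one_lt_two)
      refine this.congr fun j => ?_
      push_cast
      rfl
    apply Summable.of_norm_bounded_eventually_nat h1
    filter_upwards [eventually_ge_atTop j0] with j hj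
    rw [Real.norm_of_nonneg (hg0 j), hg]
    exact hC j hj
  have h2 := ENNReal.tsum_iUnion_le_tsum (fun x : ℕ × (Fin d → ℕ) => ENNReal.ofReal ((Real.log x.1) ^ K / (x.1:ℝ) ^ (d + 1)))
    (fun j : ℕ => (Bd f D A B M ε j : Set (ℕ × (Fin d → ℕ))))
  have h3 : ∀ j : ℕ, ∑' x : (Bd f D A B M ε j : Set (ℕ × (Fin d → ℕ))), ENNReal.ofReal ((Real.log x.1.1) ^ K / (x.1.1:ℝ) ^ (d + 1)) =
      ENNReal.ofReal (g j) := by
    intro j
    rw [Finset.tsum_subtype' (Bd f D A B M ε j) (fun x : ℕ × (Fin d → ℕ) => ENNReal.ofReal ((Real.log x.1) ^ K / (x.1:ℝ) ^ (d + 1))), hg,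
      ENNReal.ofReal_sum_of_nonneg fun x _ => hw0 x]
  have h4 : ∑' j : ℕ, ∑' x : (Bd f D A B M ε j : Set (ℕ × (Fin d → ℕ))), ENNReal.ofReal ((Real.log x.1.1) ^ K / (x.1.1:ℝ) ^ (d + 1)) ≠ ∞ := by
    simp only [h3]
    exact hgs.tsum_ofReal_ne_top
  exact ne_top_of_le_ne_top h4 h2

lemma BdS_mem {d : ℕ} {f : Fin (d + 1) → Polynomial ℤ} {D A B M : ℕ} {ε : ℝ} {x : ℕ × (Fin d → ℕ)} (hx : x ∈ BdS f D A B M ε) (i : Fin d) : x.2 i ≤ 2 * A * x.1 := by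
  classical
  unfold BdS at hx
  rw [Set.mem_iUnion] at hx
  obtain ⟨j, hj⟩ := hx
  rw [mem_coe] at hj
  unfold Bd at hj
  rw [mem_filter, mem_product, mem_Ico, Fintype.mem_piFinset] at hj
  have h1 := (mem_Icc.mp (hj.1.2 i)).2
  calc x.2 i ≤ A * 2 ^ (j + 1) := h1
    _ = 2 * A * 2 ^ j := by rw [pow_succ]; ring
    _ ≤ _ := Nat.mul_le_mul_left _ hj.1.1.1

/-- all the good approximations have good shifts -/
def Fine {d : ℕ} (f : Fin (d + 1) → Polynomial ℤ) (D B : ℕ) (ε : ℝ) (α : Fin d → ℝ) : Prop :=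
  ∃ Q : ℕ, ∀ (q : ℕ) (a : Fin d → ℕ), Q ≤ q → α ∈ Ap B q a → ∀ N : ℕ, q ^ D ≤ B * N → (N:ℝ) ≤ (q:ℝ) ^ D * (Real.log q) ^ B →
    HLd ε N (pv f q a)

/-- a bounded part of the exceptional set -/
lemma part_null {d : ℕ} (hd : 1 ≤ d) (f : Fin (d + 1) → Polynomial ℤ) {D : ℕ} (hD1 : 1 ≤ D) (hD : ∀ i, (f i).natDegree = D)
    (hl : ∀ i, 0 < (f i).leadingCoeff) (A B K : ℕ) (hA : 1 ≤ A) (hB : 1 ≤ B) {ε : ℝ} (hε : 0 < ε) (hε1 : ε ≤ 1)
    (m : ℝ≥0∞ → ℝ≥0∞) (hm : Monotone m) (C : ℝ) (hC : 0 ≤ C)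
    (hmC : ∀ r : ℝ, 0 < r → r ≤ 1 / 2 → m (ENNReal.ofReal r) ≤ ENNReal.ofReal (C * (r ^ d * (Real.log (1 / r)) ^ K))) :
    Measure.mkMetric m {α : Fin d → ℝ | (∀ i, 1 / (A:ℝ) ≤ α i ∧ α i ≤ A) ∧ ¬ Fine f D B ε α} = 0 := by
  obtain ⟨M, hM⟩ := exists_nat_ge (4 / ε)
  have hM4 : 4 ≤ ε * M := by rw [div_le_iff₀ hε] at hM; linarith
  have hM1 : 1 ≤ M := by
    by_contra hcon
    have : M = 0 := by omega
    rw [this] at hM4
    norm_num at hM4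
  obtain ⟨j0, hj0⟩ := catch_bad f (A := A + 1) (B := B) hD1 hB hM1 hε hε1 hM4
  obtain ⟨q0, hq3, hq0⟩ := ev_log (B + 1)
  have hnull := limsup_null hd (2 * (A + 1)) B K (BdS f D (A + 1) B M (ε / 4)) (fun x hx i => BdS_mem hx i)
    (BdS_sum f hD1 hD hl (A + 1) B M (B + K) (by omega) hB (by positivity)) m hm C hC hmC
  refine measure_mono_null ?_ hnull
  choose n1 hn1 using fun i => eval_pos (f i) (by rw [hD i]; exact hD1) (hl i)
  obtain ⟨n2, hn2⟩ : ∃ n2, n2 = ∑ i, n1 i := ⟨_, rfl⟩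
  have hn12 : ∀ i, n1 i ≤ n2 := fun i => by rw [hn2]; exact single_le_sum (fun _ _ => Nat.zero_le _) (mem_univ i)
  rintro α ⟨hα, hbad⟩ J
  unfold Fine at hbad
  push Not at hbad
  obtain ⟨X1, hX1⟩ : ∃ X1 : ℕ, X1 = 2 ^ (j0 + 1) := ⟨_, rfl⟩
  obtain ⟨X2, hX2⟩ : ∃ X2 : ℕ, X2 = A * (n2 + 2) := ⟨_, rfl⟩
  obtain ⟨q, a, hq, hap, N, hN1, hN2, hHL⟩ := hbad (J + X1 + q0 + X2 + n2 + 4)
  have hq1 : 1 ≤ q := by omega
  have hqr : (0:ℝ) < q := by exact_mod_cast hq1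
  have hA0 : (0:ℝ) < A := by exact_mod_cast hA
  obtain ⟨k1, k2⟩ := hq0 q (by omega)
  -- the numerators
  have hdiff : ∀ i, |q * α i - a i| ≤ 1 := by
    intro i
    have h1 := hap i
    have h2 : |q * α i - a i| ^ d ≤ 1 := by
      have h3 : (Real.log q) ^ B ≤ (Real.log q) ^ (B + 1) := pow_le_pow_right₀ k2 (by omega)
      have h4 : (q:ℝ) * |q * α i - a i| ^ d ≤ q * 1 := by rw [mul_one]; exact h1.trans (h3.trans k1)
      exact le_of_mul_le_mul_left h4 hqr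
    by_contra hcon
    push Not at hcon
    have := one_lt_pow₀ hcon (by omega : d ≠ 0)
    linarith
  have hai : ∀ i, n2 + 1 ≤ a i ∧ a i ≤ (A + 1) * q := by
    intro i
    have h1 := abs_le.mp (hdiff i)
    obtain ⟨h2, h3⟩ := hα i
    constructor
    · have h4 : (q:ℝ) * (1 / A) ≤ q * α i := mul_le_mul_of_nonneg_left h2 hqr.le
      have h5 : (n2:ℝ) + 2 ≤ q * (1 / A) := by
        rw [mul_one_div, le_div_iff₀ hA0]
        have h6 : ((A * (n2 + 2) : ℕ) : ℝ) ≤ q := by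
          rw [← hX2]
          exact_mod_cast (by omega : X2 ≤ q)
        push_cast at h6
        linarith
      have h6 : (n2:ℝ) + 1 ≤ a i := by linarith [h1.2]
      exact_mod_cast h6
    · have h4 : (q:ℝ) * α i ≤ q * A := mul_le_mul_of_nonneg_left h3 hqr.le
      have h5 : (a i : ℝ) ≤ q * A + 1 := by linarith [h1.1]
      have h6 : (1:ℝ) ≤ q := by exact_mod_cast hq1
      have h7 : (a i : ℝ) ≤ (A + 1) * q := by linarith
      exact_mod_cast h7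
  obtain ⟨j, hj⟩ : ∃ j, j = Nat.log 2 q := ⟨_, rfl⟩
  have hj1 : 2 ^ j ≤ q := by rw [hj]; exact Nat.pow_log_le_self 2 (by omega)
  have hj2 : q < 2 ^ (j + 1) := by rw [hj]; exact Nat.lt_pow_succ_log_self (by norm_num) _
  have hjj : j0 ≤ j := by
    have h1 : 2 ^ (j0 + 1) < 2 ^ (j + 1) := lt_of_le_of_lt (by rw [← hX1]; omega) hj2
    have := (Nat.pow_lt_pow_iff_right (by norm_num)).mp h1
    omega
  have hpos : ∀ i, 0 < pv f q a i := by
    intro i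
    unfold pv
    apply hn1 i
    refine (hn12 i).trans ?_
    refine Fin.cases ?_ (fun i => ?_) i
    · rw [Fin.cons_zero]; omega
    · rw [Fin.cons_succ]
      have := (hai i).1
      omega
  have hmem := hj0 j hjj q hj1 hj2 a (fun i => ⟨by have := (hai i).1; omega, (hai i).2⟩) hpos N hN1 hN2 hHL
  refine ⟨⟨(q, a), ?_⟩, ?_, hap⟩
  · unfold BdS
    rw [Set.mem_iUnion]
    exact ⟨j, hmem⟩
  · show J ≤ q
    omega

lemma HLd_mono {s : ℕ} {ε ε' : ℝ} (h : ε ≤ ε') {N : ℕ} {v : Fin s → ℤ} (hv : HLd ε N v) : HLd ε' N v := by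
  obtain ⟨S, hS, hv⟩ := hv
  refine ⟨S, hS, fun hadm => ?_⟩
  obtain ⟨h1, h2⟩ := hv hadm
  refine ⟨h1, h2.trans (mul_le_mul_of_nonneg_right h ?_)⟩
  have := Real.log_natCast_nonneg N
  positivity

/-- the families of polynomials -/
def Adm {d : ℕ} (f : Fin (d + 1) → Polynomial ℤ) (D : ℕ) : Prop :=
  1 ≤ D ∧ (∀ i, (f i).natDegree = D) ∧ ∀ i, 0 < (f i).leadingCoeff

/-- the exceptional set -/
def Exc (d : ℕ) : Set (Fin d → ℝ) := {α | (∀ i, 0 < α i) ∧ ¬ ∀ (f : Fin (d + 1) → Polynomial ℤ) (D : ℕ), Adm f D →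
  ∀ (B : ℕ) (ε : ℝ), 0 < ε → Fine f D B ε α}

lemma countable_poly : Countable (Polynomial ℤ) := by
  rw [← Cardinal.mk_le_aleph0_iff]
  refine Polynomial.cardinalMk_le_max.trans ?_
  simp

theorem Exc_null {d : ℕ} (hd : 1 ≤ d) (K : ℕ) (m : ℝ≥0∞ → ℝ≥0∞) (hm : Monotone m) (C : ℝ)
    (hmC : ∀ r : ℝ, 0 < r → r ≤ 1 / 2 → m (ENNReal.ofReal r) ≤ ENNReal.ofReal (C * (r ^ d * (Real.log (1 / r)) ^ K))) :
    Measure.mkMetric m (Exc d) = 0 := by
  have hmC' : ∀ r : ℝ, 0 < r → r ≤ 1 / 2 → m (ENNReal.ofReal r) ≤ ENNReal.ofReal (max C 0 * (r ^ d * (Real.log (1 / r)) ^ K)) := by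
    intro r hr hr2
    refine (hmC r hr hr2).trans (ENNReal.ofReal_le_ofReal ?_)
    apply mul_le_mul_of_nonneg_right (le_max_left _ _)
    have : 0 ≤ Real.log (1 / r) := Real.log_nonneg (by
      rw [le_div_iff₀ hr]; linarith)
    positivity
  have hsub : Exc d ⊆ ⋃ (f : Fin (d + 1) → Polynomial ℤ) (D : ℕ) (_ : Adm f D) (A : ℕ) (B : ℕ) (n : ℕ),
      {α : Fin d → ℝ | (∀ i, 1 / ((A + 1 : ℕ):ℝ) ≤ α i ∧ α i ≤ ((A + 1 : ℕ) : ℝ)) ∧
      ¬ Fine f D (B + 1) (1 / ((n:ℝ) + 1)) α} := by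
    rintro α ⟨hα, hbad'⟩
    push Not at hbad'
    obtain ⟨f, D, hAdm, B, ε, hε, hbad⟩ := hbad'
    simp only [Set.mem_iUnion]
    have hne : Nonempty (Fin d) := ⟨⟨0, by omega⟩⟩
    obtain ⟨A, hA⟩ : ∃ A : ℕ, ∀ i, 1 / α i ≤ A ∧ α i ≤ A := by
      obtain ⟨A, hA⟩ := exists_nat_ge (∑ i, (1 / α i + α i))
      refine ⟨A, fun i => ?_⟩
      have h1 : 1 / α i + α i ≤ ∑ i, (1 / α i + α i) :=
        Finset.single_le_sum (f := fun i => 1 / α i + α i) (fun i _ => by have := hα i; positivity) (mem_univ i)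
      have h2 := hα i
      have h3 : 0 < 1 / α i := by positivity
      constructor <;> linarith
    obtain ⟨n, hn⟩ := exists_nat_ge (1 / ε)
    refine ⟨f, D, hAdm, A, B, n, ?_, ?_⟩
    · intro i
      obtain ⟨h1, h2⟩ := hA i
      have h3 := hα i
      push_cast
      have hA0 : (0:ℝ) ≤ A := Nat.cast_nonneg _
      constructor
      · rw [div_le_iff₀ (by positivity)]
        rw [div_le_iff₀ h3] at h1
        linarith
      · linarith
    · intro hfine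
      apply hbad
      obtain ⟨Q, hQ⟩ := hfine
      obtain ⟨q0, hq3, hq0⟩ := ev_log (B + 1)
      have hne1 : 1 / ((n:ℝ) + 1) ≤ ε := by
        rw [div_le_iff₀ (by positivity)]
        rw [div_le_iff₀ hε] at hn
        linarith
      refine ⟨Q + q0, fun q a hq hap N hN1 hN2 => ?_⟩
      have hl := (hq0 q (by omega)).2
      have hpow : (Real.log q) ^ B ≤ (Real.log q) ^ (B + 1) := pow_le_pow_right₀ hl (by omega)
      refine HLd_mono hne1 (hQ q a (by omega) (fun i => (hap i).trans hpow) N (hN1.trans (Nat.mul_le_mul_right _ (by omega)))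
        (hN2.trans (mul_le_mul_of_nonneg_left hpow (by positivity))))
  refine measure_mono_null hsub ?_
  have hcp := countable_poly
  refine measure_iUnion_null fun f => measure_iUnion_null fun D => measure_iUnion_null fun hAdm =>
    measure_iUnion_null fun A => measure_iUnion_null fun B => measure_iUnion_null fun n => ?_
  exact part_null hd f hAdm.1 hAdm.2.1 hAdm.2.2 (A + 1) (B + 1) K (by omega) (by omega) (by positivity) (by
    rw [div_le_one (by positivity)]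
    have : (0:ℝ) ≤ n := Nat.cast_nonneg _
    linarith) m hm (max C 0) (le_max_right _ _) hmC'

theorem Exc_volume {d : ℕ} (hd : 1 ≤ d) : volume (Exc d) = 0 := by
  have h1 := Exc_null hd 0 (fun r => r ^ (d:ℝ)) (fun x y hxy => ENNReal.rpow_le_rpow hxy (Nat.cast_nonneg _)) 1 (by
    intro r hr _
    rw [one_mul, pow_zero, mul_one, ENNReal.rpow_natCast, ← ENNReal.ofReal_pow hr.le])
  have h2 : (Measure.hausdorffMeasure (d:ℝ) : Measure (Fin d → ℝ)) = volume := by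
    have := hausdorffMeasure_pi_real (ι := Fin d)
    rwa [Fintype.card_fin] at this
  rw [← h2]
  exact h1

end Pool.Agent.D0H48.Hl
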